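import Pool.Agent.Helper5.SX.St

/-!
# Project SX: module SWU (swap in the block of u)
-/

set_option autoImplicit false

namespace Pool.Agent.Helper4.SX

open _root_.SX
open Finset
open scoped Classical

theorem hSWU : StSWU := by
  intro V _ A c v hB hbv hav hlf
  have hN : ∀ z ∈ A.N v, c z ≠ A.al := by
    intro z hz hc
    have h1 : z ∈ Lf A c v := by
      unfold Lf
      exact Finset.mem_filter.2 ⟨hz, hc⟩
    rw [hlf] at h1
    exact absurd h1 (Finset.notMem_empty z)
  have huM : A.u ∈ Mk A c := by
    unfold Mk
    exact Finset.mem_filter.2 ⟨Finset.mem_univ _, Or.inl rfl⟩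
  have hav' : v ≠ A.u → ∀ z ∈ A.N A.u, c z = c v → A.k ≤ c v := by
    intro hne z hz hc
    rcases hav with h | h
    · exact absurd h hne
    · exact h.2 A.u huM hbv.symm z hz hc
  obtain ⟨c', hc'⟩ : ∃ c' : V → ℕ, c' = fun w => if w = v then A.al else if w = A.u then c v else c w :=
    ⟨_, rfl⟩
  have cv : c' v = A.al := by rw [hc']; simp
  have cu : v ≠ A.u → c' A.u = c v := by
    intro h
    rw [hc']
    simp only
    rw [if_neg (Ne.symm h)]
    simp
  have co : ∀ w, w ≠ v → w ≠ A.u → c' w = c w := by
    intro w h1 h2
    rw [hc']
    simp only
    rw [if_neg h1, if_neg h2]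
  have hlab : Lab A.toSys c' := by
    refine ⟨?_, ?_⟩
    · intro w w' hb he
      by_cases h1 : w = v
      · by_cases h2 : w' = v
        · rw [h1, h2]
        · exfalso
          rw [h1, cv] at he
          by_cases h3 : w' = A.u
          · have hne : v ≠ A.u := fun h => h2 (h3.trans h.symm)
            rw [h3, cu hne] at he
            exact hB.miss v hbv he.symm
          · rw [co w' h2 h3] at he
            exact hB.miss w' (by rw [← hb, h1, hbv]) he.symm
      · by_cases h2 : w' = v
        · exfalso
          rw [h2, cv] at he
          by_cases h3 : w = A.u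
          · have hne : v ≠ A.u := fun h => h1 (h3.trans h.symm)
            rw [h3, cu hne] at he
            exact hB.miss v hbv he
          · rw [co w h1 h3] at he
            exact hB.miss w (by rw [hb, h2, hbv]) he
        · by_cases h3 : w = A.u
          · by_cases h4 : w' = A.u
            · rw [h3, h4]
            · exfalso
              have hne : v ≠ A.u := fun h => h1 (h3.trans h.symm)
              rw [h3, cu hne, co w' h2 h4] at he
              exact h2 (hB.lab.inj v w' (by rw [hbv, ← h3, hb]) he).symm
          · by_cases h4 : w' = A.u
            · exfalso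
              have hne : v ≠ A.u := fun h => h2 (h4.trans h.symm)
              rw [h4, cu hne, co w h1 h3] at he
              exact h1 (hB.lab.inj w v (by rw [hbv, ← h4, hb]) he)
            · rw [co w h1 h3, co w' h2 h4] at he
              exact hB.lab.inj w w' hb he
    · intro w z hz he
      have hbz : A.b z ≠ A.b w := A.out w z hz
      by_cases h1 : w = v
      · exfalso
        rw [h1] at hz hbz he
        have h2 : z ≠ v := fun h => hbz (by rw [h])
        have h3 : z ≠ A.u := fun h => hbz (by rw [h, hbv])
        rw [cv, co z h2 h3] at he
        exact hN z hz he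
      · by_cases h2 : z = v
        · exfalso
          rw [h2] at hz hbz he
          have h3 : w ≠ A.u := fun h => hbz (by rw [h, hbv])
          rw [cv, co w h1 h3] at he
          exact hN w (A.symm w v hz) he.symm
        · by_cases h3 : w = A.u
          · have hne : v ≠ A.u := fun h => h1 (h3.trans h.symm)
            have h4 : z ≠ A.u := fun h => hbz (by rw [h, h3])
            rw [h3] at hz he
            rw [h3]
            rw [cu hne, co z h2 h4] at he
            rw [cu hne]
            exact hav' hne z hz he
          · by_cases h4 : z = A.u
            · have hne : v ≠ A.u := fun h => h2 (h4.trans h.symm)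
              rw [h4] at hz he
              rw [cu hne, co w h1 h3] at he
              rw [co w h1 h3, ← he]
              exact hav' hne w (A.symm w A.u hz) he.symm
            · rw [co w h1 h3, co z h2 h4] at he
              rw [co w h1 h3]
              exact hB.lab.prop w z hz he
  have hmax := hB.max c' hlab
  unfold cnt at hmax
  set S := univ.filter (fun w => c w < A.k) with hS
  set S' := univ.filter (fun w => c' w < A.k) with hS'
  have hvS' : v ∈ S' := by
    rw [hS', Finset.mem_filter]
    exact ⟨Finset.mem_univ _, by rw [cv]; exact hB.lt⟩
  have hsub : S.image (Equiv.swap A.u v) ⊆ S'.erase v := by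
    intro x hx
    rw [Finset.mem_image] at hx
    obtain ⟨w, hw, rfl⟩ := hx
    rw [hS, Finset.mem_filter] at hw
    have hwu : w ≠ A.u := by
      intro h
      have h1 := hB.blank
      rw [h] at hw
      omega
    rw [Finset.mem_erase, hS', Finset.mem_filter]
    by_cases h1 : w = v
    · have hne : v ≠ A.u := fun h => hwu (h1.trans h)
      rw [h1, Equiv.swap_apply_right]
      refine ⟨Ne.symm hne, Finset.mem_univ _, ?_⟩
      rw [cu hne, ← h1]
      exact hw.2
    · rw [Equiv.swap_apply_of_ne_of_ne hwu h1]
      refine ⟨h1, Finset.mem_univ _, ?_⟩
      rw [co w h1 hwu]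
      exact hw.2
  have h1 := Finset.card_le_card hsub
  rw [Finset.card_image_of_injective _ (Equiv.injective _)] at h1
  have h2 := Finset.card_erase_lt_of_mem hvS'
  omega

end Pool.Agent.Helper4.SX
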